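import Pool.Agent.H424.PS.Ext
import Pool.Graph.R_seed8.H108R2.Bound3

/-!
# Linear spaces as restrictions of Steiner systems
-/

set_option autoImplicit false

namespace Pool.Agent.H424.PS

open Finset H108 Pool.Agent.W855 Pool.Agent.W865.SS Pool.Agent.X18.SEmb

theorem core : ∃ C : ℕ, ∀ q m n : ℕ, 2 ≤ q → 1 ≤ m →
    ((IsPrimePow q ∧ q ^ C * m ≤ n) ∨ q ^ (C * q) * m ≤ n) →
    (∀ i < 2, (q - i).choose (2 - i) ∣ (n - i).choose (2 - i)) →
    ∀ P : Finset (Finset (Fin m)), Part q P →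
      ∃ (h : m ≤ n) (B : Finset (Finset (Fin n))), IsS n q B ∧ Good h P B := by
  classical
  obtain ⟨C, hC⟩ := part_emb
  obtain ⟨C1, hC1⟩ := threshold_main
  refine ⟨max ((C1 + 1) * C) (10 ^ 7 * C), ?_⟩
  intro q m n hq hm hn hD P hP
  have hqC : ∀ e : ℕ, m ≤ q ^ e * m := fun e => Nat.le_mul_of_pos_left _ (by positivity)
  have hmn : m ≤ n := by
    rcases hn with ⟨-, hn⟩ | hn
    · exact (hqC _).trans hn
    · exact (hqC _).trans hn
  rcases Nat.lt_or_ge q 3 with h3 | h3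
  · -- all pairs
    have hq2 : q = 2 := by omega
    subst hq2
    refine ⟨hmn, powersetCard 2 univ, ⟨fun b hb => (mem_powersetCard.1 hb).2, fun T hT => ?_⟩,
      ?_, ?_⟩
    · refine ⟨T, ⟨mem_powersetCard.2 ⟨subset_univ _, hT⟩, subset_rfl⟩, ?_⟩
      rintro b ⟨hb1, hb2⟩
      exact (eq_of_subset_of_card_le hb2 (by rw [hT, (mem_powersetCard.1 hb1).2])).symm
    · intro b hb
      rw [mem_powersetCard, card_map]
      exact ⟨subset_univ _, hP.1 b hb⟩
    · intro c hc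
      right
      intro x y z hxy hxz hyz hx hy hz
      have h2 : c.card = 2 := (mem_powersetCard.1 hc).2
      have h4 : 2 < c.card := two_lt_card_iff.2 ⟨_, _, _, hx, hy, hz,
        fun h => hxy (Fin.castLE_injective hmn h), fun h => hxz (Fin.castLE_injective hmn h),
        fun h => hyz (Fin.castLE_injective hmn h)⟩
      omega
  · have hn0 : 1 ≤ n := hm.trans hmn
    have hA : H108.Adm q n := by
      refine ⟨by simpa using hD 1 (by omega), ?_, hn0⟩
      rw [← Pool.Agent.W855.two_mul_choose', ← Pool.Agent.W855.two_mul_choose']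
      exact mul_dvd_mul_left 2 (by simpa using hD 0 (by omega))
    rcases hn with ⟨hpp, hn⟩ | hn
    · have hthr : Thr q (q ^ (C1 + 1)) := fun v hv hav =>
        hC1 q hpp h3 v ((Nat.pow_le_pow_right (by omega) (by omega)).trans hv) hav
      refine hC q (q ^ (C1 + 1)) h3 (Nat.le_self_pow (by omega) q) hthr m n hm ?_ hA P hP
      refine le_trans ?_ hn
      rw [← pow_mul]
      exact Nat.mul_le_mul_right _ (Nat.pow_le_pow_right (by omega) (le_max_left _ _))
    · have hthr : Thr q (q ^ (10 ^ 7 * q)) := fun v hv hav => H108.main3 h3 hav hv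
      have h7 : 10 ^ 7 * q ≠ 0 := by positivity
      refine hC q (q ^ (10 ^ 7 * q)) h3 (Nat.le_self_pow h7 q) hthr m n hm ?_ hA P hP
      refine le_trans ?_ hn
      rw [← pow_mul]
      refine Nat.mul_le_mul_right _ (Nat.pow_le_pow_right (by omega) ?_)
      have h8 : 10 ^ 7 * q * C = 10 ^ 7 * C * q := by ring
      rw [h8]
      exact Nat.mul_le_mul_right _ (le_max_right _ _)

/-- linear spaces -/
theorem linear : ∃ C : ℕ, ∀ q m n : ℕ, 2 ≤ q → 1 ≤ m →
    ((IsPrimePow q ∧ q ^ C * m ≤ n) ∨ q ^ (C * q) * m ≤ n) →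
    (∀ i < 2, (q - i).choose (2 - i) ∣ (n - i).choose (2 - i)) →
    ∀ L : Finset (Finset (Fin m)), (∀ l ∈ L, 2 ≤ l.card ∧ l.card ≤ q) →
      (∀ x y : Fin m, x ≠ y → ∃! l, l ∈ L ∧ x ∈ l ∧ y ∈ l) →
      ∃ (h : m ≤ n) (B : Finset (Finset (Fin n))), IsS n q B ∧
        ∀ s : Finset (Fin m), 2 ≤ s.card →
          (s ∈ L ↔ ∃ b ∈ B, ∀ x, x ∈ s ↔ Fin.castLE h x ∈ b) := by
  classical
  obtain ⟨C, hC⟩ := core
  refine ⟨C + 6, ?_⟩
  intro q m n hq hm hn hD L hL hLu
  let L3 : Finset (Finset (Fin m)) := L.filter (fun l => 3 ≤ l.card)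
  have hL3 : PLS q L3 := by
    refine ⟨fun l hl => hL l (mem_filter.1 hl).1, ?_⟩
    intro l hl l' hl' x y hxy h1 h2 h3 h4
    obtain ⟨d, -, hd⟩ := hLu x y hxy
    rw [hd l ⟨(mem_filter.1 hl).1, h1, h2⟩, hd l' ⟨(mem_filter.1 hl').1, h3, h4⟩]
  obtain ⟨m', hm', h, P, hP, hP1, hP2⟩ := ext_part hm hq hL3
  have h56 : 5 * q ^ 3 * m ≤ q ^ 6 * m := by
    have : 2 ^ 3 ≤ q ^ 3 := Nat.pow_le_pow_left hq 3
    have e : q ^ 6 = q ^ 3 * q ^ 3 := by rw [← pow_add]
    rw [e]
    gcongr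
    omega
  have hn' : (IsPrimePow q ∧ q ^ C * m' ≤ n) ∨ q ^ (C * q) * m' ≤ n := by
    rcases hn with ⟨hpp, hn⟩ | hn
    · left
      refine ⟨hpp, le_trans ?_ hn⟩
      rw [pow_add, mul_assoc]
      exact Nat.mul_le_mul_left _ (hm'.trans h56)
    · right
      refine le_trans ?_ hn
      have h1 : q ^ (C * q) * m' ≤ q ^ (C * q + 6) * m := by
        rw [pow_add, mul_assoc]
        exact Nat.mul_le_mul_left _ (hm'.trans h56)
      refine h1.trans (Nat.mul_le_mul_right _ (Nat.pow_le_pow_right (by omega) ?_))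
      have : 6 ≤ 6 * q := by omega
      nlinarith
  obtain ⟨h', B, hB, hB1, hB2⟩ := hC q m' n hq (by omega) hn' hD P hP
  have hcast : ∀ x : Fin m, Fin.castLE h' (Fin.castLE h x) = Fin.castLE (h.trans h') x :=
    fun x => rfl
  have htr : ∀ (b : Finset (Fin m')) (x : Fin m), Fin.castLE (h.trans h') x ∈
      b.map (Fin.castLEEmb h') ↔ Fin.castLE h x ∈ b := fun b x =>
    mem_map' (Fin.castLEEmb h') (a := Fin.castLE h x)
  -- every line is a trace
  have hfwd : ∀ s ∈ L, ∃ b ∈ B, ∀ x, x ∈ s ↔ Fin.castLE (h.trans h') x ∈ b := by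
    intro s hs
    rcases Nat.lt_or_ge s.card 3 with h3 | h3
    · have hs2 : s.card = 2 := by have := (hL s hs).1; omega
      obtain ⟨x, y, hxy, hsxy⟩ := card_eq_two.1 hs2
      have hxs : x ∈ s := by rw [hsxy]; simp
      have hys : y ∈ s := by rw [hsxy]; simp
      obtain ⟨c, hc, hcx, hcy⟩ := isS_exists hB (fun hh => hxy (Fin.castLE_injective
        (h.trans h') hh) : Fin.castLE (h.trans h') x ≠ Fin.castLE (h.trans h') y)
      refine ⟨c, hc, ?_⟩
      intro z
      constructor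
      · intro hz
        rw [hsxy, mem_insert, mem_singleton] at hz
        rcases hz with rfl | rfl
        · exact hcx
        · exact hcy
      · intro hz
        by_contra hzs
        have hxz : x ≠ z := fun hh => hzs (hh ▸ hxs)
        have hyz : y ≠ z := fun hh => hzs (hh ▸ hys)
        rcases hB2 c hc with ⟨b, hb, rfl⟩ | hc3
        · obtain ⟨l, hl, hlb⟩ := hP2 b hb
          have hxl : x ∈ l := (hlb x).2 ((htr b x).1 hcx)
          have hyl : y ∈ l := (hlb y).2 ((htr b y).1 hcy)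
          obtain ⟨d, -, hd⟩ := hLu x y hxy
          have e1 := hd l ⟨(mem_filter.1 hl).1, hxl, hyl⟩
          have e2 := hd s ⟨hs, hxs, hys⟩
          have := (mem_filter.1 hl).2
          rw [e1, ← e2] at this
          omega
        · have hne : ∀ u v : Fin m, u ≠ v → Fin.castLE h u ≠ Fin.castLE h v := fun u v huv hh =>
            huv (Fin.castLE_injective h hh)
          exact hc3 _ _ _ (hne x y hxy) (hne x z hxz) (hne y z hyz) hcx hcy hz
    · obtain ⟨b, hb, hsb⟩ := hP1 s (mem_filter.2 ⟨hs, h3⟩)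
      exact ⟨_, hB1 b hb, fun x => (hsb x).trans (htr b x).symm⟩
  refine ⟨h.trans h', B, hB, ?_⟩
  intro s hs2
  refine ⟨hfwd s, ?_⟩
  rintro ⟨c, hc, hsc⟩
  obtain ⟨x, hx, y, hy, hxy⟩ := one_lt_card.1 (by omega : 1 < s.card)
  obtain ⟨l, ⟨hl, hlx, hly⟩, -⟩ := hLu x y hxy
  obtain ⟨c', hc', hlc⟩ := hfwd l hl
  have hcc : c = c' := isS_unique hB (fun hh => hxy (Fin.castLE_injective (h.trans h') hh)) hc hc'
    ((hsc x).1 hx) ((hsc y).1 hy) ((hlc x).1 hlx) ((hlc y).1 hly)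
  subst hcc
  have : s = l := by
    ext z
    rw [hsc, hlc]
  rw [this]
  exact hl

end Pool.Agent.H424.PS
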