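import Pool.Agent.H424.PS.Main

/-!
# Partial Steiner systems inside Steiner systems
-/

set_option autoImplicit false

namespace Pool.Agent.H424.PS

open Finset H108 Pool.Agent.W855 Pool.Agent.W865.SS Pool.Agent.X18.SEmb

theorem exists_equiv_ext {Z : Type} [Finite Z] {n m : ℕ} (hZ : Nat.card Z = n) (f : Fin m ↪ Z) :
    ∃ (h : m ≤ n) (e : Z ≃ Fin n), ∀ x, e (f x) = Fin.castLE h x := by
  classical
  have h : m ≤ n := by
    have := Nat.card_le_card_of_injective f f.injective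
    rwa [Nat.card_fin, hZ] at this
  have e0 : Z ≃ Fin n := (Finite.card_eq.1 (by rw [hZ, Nat.card_fin])).some
  let f1 : Fin m → Fin n := fun x => e0 (f x)
  have hf1 : Function.Injective f1 := e0.injective.comp f.injective
  let f2 : Fin m → Fin n := Fin.castLE h
  have hf2 : Function.Injective f2 := Fin.castLE_injective h
  let e1 : {y // y ∈ Set.range f1} ≃ {y // y ∈ Set.range f2} :=
    (Equiv.ofInjective f1 hf1).symm.trans (Equiv.ofInjective f2 hf2)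
  refine ⟨h, e0.trans e1.extendSubtype, fun x => ?_⟩
  have h1 : e1.extendSubtype (f1 x) = (e1 ⟨f1 x, ⟨x, rfl⟩⟩ : Fin n) :=
    e1.extendSubtype_apply_of_mem _ _
  have h2 : (Equiv.ofInjective f1 hf1).symm ⟨f1 x, ⟨x, rfl⟩⟩ = x := by
    rw [Equiv.symm_apply_eq]
    rfl
  rw [Equiv.trans_apply]
  change e1.extendSubtype (f1 x) = _
  rw [h1]
  change ((Equiv.ofInjective f2 hf2 ((Equiv.ofInjective f1 hf1).symm ⟨f1 x, ⟨x, rfl⟩⟩) :
    {y // y ∈ Set.range f2}) : Fin n) = _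
  rw [h2]
  rfl

/-- transport to `Fin n` -/
theorem isS_of_dec {Z : Type} [Finite Z] {n q : ℕ} {B : Set (Finset Z)}
    (hB : Dec q (fun x y => x ≠ y) B) (e : Z ≃ Fin n) :
    ∃ B' : Finset (Finset (Fin n)), IsS n q B' ∧ ∀ c, c ∈ B' ↔ ∃ b ∈ B, c = b.map e.toEmbedding := by
  classical
  refine ⟨univ.filter (fun c => ∃ b ∈ B, c = b.map e.toEmbedding), ⟨?_, ?_⟩, by simp⟩
  · intro c hc
    obtain ⟨b, hb, rfl⟩ := (mem_filter.1 hc).2
    rw [card_map]
    exact (hB.1 b hb).1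
  · intro T hT
    obtain ⟨x, y, hxy, rfl⟩ := card_eq_two.1 hT
    obtain ⟨u, rfl⟩ := e.surjective x
    obtain ⟨v, rfl⟩ := e.surjective y
    have huv : u ≠ v := fun h => hxy (by rw [h])
    obtain ⟨b, ⟨hb1, hb2, hb3⟩, hb4⟩ := hB.2 u v huv huv
    have hsub : ∀ c : Finset Z, {e u, e v} ⊆ c.map e.toEmbedding ↔ u ∈ c ∧ v ∈ c := by
      intro c
      rw [insert_subset_iff, singleton_subset_iff]
      have h1 : e u ∈ c.map e.toEmbedding ↔ u ∈ c := mem_map' e.toEmbedding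
      have h2 : e v ∈ c.map e.toEmbedding ↔ v ∈ c := mem_map' e.toEmbedding
      rw [h1, h2]
    refine ⟨b.map e.toEmbedding, ⟨mem_filter.2 ⟨mem_univ _, b, hb1, rfl⟩, (hsub b).2 ⟨hb2, hb3⟩⟩, ?_⟩
    rintro c ⟨hc1, hc2⟩
    obtain ⟨d, hd, rfl⟩ := (mem_filter.1 hc1).2
    rw [hsub] at hc2
    rw [hb4 d ⟨hd, hc2⟩]

/-- the block through two points is unique -/
theorem isS_unique {n q : ℕ} {B : Finset (Finset (Fin n))} (hB : IsS n q B) {x y : Fin n}
    (hxy : x ≠ y) {c c' : Finset (Fin n)} (hc : c ∈ B) (hc' : c' ∈ B) (h1 : x ∈ c) (h2 : y ∈ c)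
    (h3 : x ∈ c') (h4 : y ∈ c') : c = c' := by
  obtain ⟨b, -, hb⟩ := hB.2 {x, y} (card_pair hxy)
  have hs : ∀ d : Finset (Fin n), x ∈ d → y ∈ d → {x, y} ⊆ d := by
    intro d hx hy z hz
    rcases mem_insert.1 hz with rfl | hz
    · exact hx
    · rw [mem_singleton.1 hz]; exact hy
  rw [hb c ⟨hc, hs c h1 h2⟩, hb c' ⟨hc', hs c' h3 h4⟩]

theorem isS_exists {n q : ℕ} {B : Finset (Finset (Fin n))} (hB : IsS n q B) {x y : Fin n}
    (hxy : x ≠ y) : ∃ c ∈ B, x ∈ c ∧ y ∈ c := by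
  obtain ⟨b, ⟨hb1, hb2⟩, -⟩ := hB.2 {x, y} (card_pair hxy)
  exact ⟨b, hb1, hb2 (by simp), hb2 (by simp)⟩

/-- `B` contains the blocks of `P`, all other blocks meet the first `m` points in at most two
points -/
def Good {m n : ℕ} (h : m ≤ n) (P : Finset (Finset (Fin m))) (B : Finset (Finset (Fin n))) : Prop :=
  (∀ b ∈ P, b.map (Fin.castLEEmb h) ∈ B) ∧
  ∀ c ∈ B, (∃ b ∈ P, c = b.map (Fin.castLEEmb h)) ∨ ∀ x y z : Fin m, x ≠ y → x ≠ z → y ≠ z →
    Fin.castLE h x ∈ c → Fin.castLE h y ∈ c → Fin.castLE h z ∈ c → False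

/-- partial systems -/
def Part {m : ℕ} (q : ℕ) (P : Finset (Finset (Fin m))) : Prop :=
  (∀ b ∈ P, b.card = q) ∧
    ∀ b ∈ P, ∀ b' ∈ P, ∀ x y, x ≠ y → x ∈ b → y ∈ b → x ∈ b' → y ∈ b' → b = b'

/-- one system containing `P`, of linear size -/
theorem one : ∃ E : ℕ, ∀ q N : ℕ, 3 ≤ q → q ≤ N → Thr q N → ∀ m : ℕ, 1 ≤ m →
    ∀ P : Finset (Finset (Fin m)), Part q P → ∃ n, n ≤ N ^ E * m ∧ ∃ (h : m ≤ n)
      (B : Finset (Finset (Fin n))), IsS n q B ∧ Good h P B := by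
  classical
  obtain ⟨E, hE⟩ := ingr
  refine ⟨3 * E + 3, ?_⟩
  intro q N hq hqN hthr m hm P hP
  obtain ⟨G, k, hG1, hGN, hkN, hdvd, hNG, hOA, h0, h1, h2, h3⟩ := hE q N hq hqN hthr
  obtain ⟨p, hp, hp1, hp2⟩ := Nat.exists_prime_lt_and_le_two_mul (m + k) (by omega)
  have : Fact p.Prime := ⟨hp⟩
  have hcast : ∀ u v : ℕ, u < p → v < p → ((u : ZMod p) = (v : ZMod p)) → u = v := by
    intro u v hu hv h
    have := congrArg ZMod.val h
    rwa [ZMod.val_natCast_of_lt hu, ZMod.val_natCast_of_lt hv] at this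
  let a : Fin k → ZMod p := fun i => ((i : ℕ) : ZMod p)
  let ξ : Fin m → ZMod p := fun x => ((k + x.val : ℕ) : ZMod p)
  have ha : Function.Injective a := fun i j h =>
    Fin.ext (hcast _ _ (by omega) (by omega) h)
  have hξ : Function.Injective ξ := fun x y h =>
    Fin.ext (by have := hcast _ _ (by omega) (by omega) h; omega)
  have hd : ∀ i x, a i ≠ ξ x := fun i x h => by
    have := hcast _ _ (by omega) (by omega) h
    omega
  have hadm : ∀ t, Adm q (G * t + 1) := by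
    intro t
    obtain ⟨d, hd⟩ := hdvd
    refine ⟨⟨q * d * t, by rw [hd]; simp; ring⟩, ⟨(G * t + 1) * (d * t), ?_⟩, by omega⟩
    rw [Nat.add_sub_cancel, hd]
    ring
  have hGp : N ≤ G * p + 1 := by
    have : G ≤ G * p := Nat.le_mul_of_pos_right _ hp.pos
    omega
  have hV : IG {q} 1 (G * p + 1) 0 := hthr _ hGp (hadm p)
  have hX : IG {q} 1 (G + 1) 0 := hthr _ (by omega) (by simpa using hadm 1)
  obtain ⟨B, hB1, hB2, hB3⟩ := geom (F := ZMod p) (a := a) (ξ := ξ) (n1 := G * p + 1)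
    (by rw [Nat.card_zmod]) (by omega) ha hξ hd hOA h0 h1 h2 h3 hV hX hP.1 hP.2 ⟨0, hG1⟩
  have hcard : Nat.card (Option (((Fin k × ZMod p) ⊕ Fin m) × Fin G)) = (k * p + m) * G + 1 := by
    rw [Finite.card_option, Nat.card_prod, Nat.card_sum, Nat.card_prod, Nat.card_fin, Nat.card_fin,
      Nat.card_fin, Nat.card_zmod]
  obtain ⟨h, e, he⟩ := exists_equiv_ext hcard (lev (ZMod p) k ⟨0, hG1⟩)
  obtain ⟨B', hB', hB''⟩ := isS_of_dec hB1 e
  have hmap : ∀ b : Finset (Fin m), (b.map (lev (ZMod p) k ⟨0, hG1⟩)).map e.toEmbedding =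
      b.map (Fin.castLEEmb h) := by
    intro b
    rw [map_map]
    congr 1
    ext x
    exact congrArg Fin.val (he x)
  refine ⟨(k * p + m) * G + 1, ?_, h, B', hB', ?_, ?_⟩
  · have hN3 : 3 ≤ N := hq.trans hqN
    have hkm : m + k ≤ (N ^ E + 1) * m := by nlinarith
    have hNE : 1 ≤ N ^ E := Nat.one_le_pow _ _ (by omega)
    have hp3 : p ≤ 4 * N ^ E * m := by nlinarith
    have e1 : k * p + m ≤ 5 * (N ^ E) ^ 2 * m := by
      have : k * p ≤ N ^ E * (4 * N ^ E * m) := Nat.mul_le_mul hkN hp3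
      have h2 : m ≤ (N ^ E) ^ 2 * m := Nat.le_mul_of_pos_left _ (by positivity)
      nlinarith
    have e2 : (k * p + m) * G + 1 ≤ 6 * (N ^ E) ^ 3 * m := by
      have h1 : (k * p + m) * G ≤ 5 * (N ^ E) ^ 2 * m * N ^ E := Nat.mul_le_mul e1 hGN
      have h2 : 1 ≤ (N ^ E) ^ 3 * m := Nat.mul_pos (by positivity) hm
      nlinarith
    refine e2.trans ?_
    have e3 : N ^ (3 * E + 3) = N ^ 3 * (N ^ E) ^ 3 := by rw [← pow_mul, ← pow_add]; congr 1; ring
    rw [e3]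
    have e4 : 27 ≤ N ^ 3 := by
      calc 27 = 3 ^ 3 := by norm_num
        _ ≤ N ^ 3 := Nat.pow_le_pow_left hN3 3
    gcongr
    omega
  · intro b hb
    rw [hB'', ← hmap]
    exact ⟨_, hB2 b hb, rfl⟩
  · intro c hc
    rw [hB''] at hc
    obtain ⟨d, hd, rfl⟩ := hc
    have hmem : ∀ x : Fin m, Fin.castLE h x ∈ d.map e.toEmbedding →
        lev (ZMod p) k ⟨0, hG1⟩ x ∈ d := by
      intro x hx
      rw [← he x] at hx
      exact (mem_map' e.toEmbedding).1 hx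
    rcases hB3 d hd with ⟨b, hb, rfl⟩ | hd3
    · exact Or.inl ⟨b, hb, hmap b⟩
    · right
      intro x y z hxy hxz hyz hx hy hz
      exact hd3 x y z hxy hxz hyz (hmem x hx) (hmem y hy) (hmem z hz)

/-- all admissible orders -/
theorem part_emb : ∃ E : ℕ, ∀ q N : ℕ, 3 ≤ q → q ≤ N → Thr q N → ∀ m n : ℕ, 1 ≤ m →
    N ^ E * m ≤ n → Adm q n → ∀ P : Finset (Finset (Fin m)), Part q P → ∃ (h : m ≤ n)
      (B : Finset (Finset (Fin n))), IsS n q B ∧ Good h P B := by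
  classical
  obtain ⟨E, hE⟩ := one
  obtain ⟨C, hC⟩ := emb_of_thr
  refine ⟨C + E, ?_⟩
  intro q N hq hqN hthr m n hm hn hA P hP
  obtain ⟨n', hn', h, B', hB', hG'⟩ := hE q N hq hqN hthr m hm P hP
  have hn2 : N ^ C * n' ≤ n := by
    refine le_trans ?_ hn
    rw [pow_add, mul_assoc]
    exact Nat.mul_le_mul_left _ hn'
  obtain ⟨h', B, hB, hBB⟩ := hC q N hq hqN hthr n' n (by omega) hn2 hA B' hB'
  have hmap : ∀ b : Finset (Fin m), (b.map (Fin.castLEEmb h)).map (Fin.castLEEmb h') =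
      b.map (Fin.castLEEmb (h.trans h')) := by
    intro b
    rw [map_map]
    congr 1
  refine ⟨h.trans h', B, hB, ?_, ?_⟩
  · intro b hb
    rw [← hmap]
    exact hBB _ (hG'.1 b hb)
  · intro c hc
    by_cases hcon : ∃ x y z : Fin m, x ≠ y ∧ x ≠ z ∧ y ≠ z ∧ Fin.castLE (h.trans h') x ∈ c ∧
        Fin.castLE (h.trans h') y ∈ c ∧ Fin.castLE (h.trans h') z ∈ c
    · left
      obtain ⟨x, y, z, hxy, hxz, hyz, hx, hy, hz⟩ := hcon
      have hxy' : Fin.castLE h x ≠ Fin.castLE h y := fun hh => hxy (Fin.castLE_injective h hh)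
      have hxy'' : Fin.castLE (h.trans h') x ≠ Fin.castLE (h.trans h') y :=
        fun hh => hxy (Fin.castLE_injective _ hh)
      obtain ⟨d, hd, hdx, hdy⟩ := isS_exists hB' hxy'
      have hmm : ∀ w : Fin m, Fin.castLE (h.trans h') w ∈ d.map (Fin.castLEEmb h') ↔
          Fin.castLE h w ∈ d := fun w => mem_map' (Fin.castLEEmb h') (a := Fin.castLE h w)
      have hcd : c = d.map (Fin.castLEEmb h') :=
        isS_unique hB hxy'' hc (hBB d hd) hx hy ((hmm x).2 hdx) ((hmm y).2 hdy)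
      rcases hG'.2 d hd with ⟨b, hb, rfl⟩ | h3
      · exact ⟨b, hb, by rw [hcd, hmap]⟩
      · exfalso
        rw [hcd] at hz
        exact h3 x y z hxy hxz hyz hdx hdy ((hmm z).1 hz)
    · right
      intro x y z hxy hxz hyz hx hy hz
      exact hcon ⟨x, y, z, hxy, hxz, hyz, hx, hy, hz⟩

end Pool.Agent.H424.PS
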