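import Pool.Agent.H424.PS.Emb

/-!
# From partial linear spaces to partial Steiner systems
-/

set_option autoImplicit false

namespace Pool.Agent.H424.PS

open Finset

/-- partial linear spaces with lines of size between `2` and `q` -/
def PLS {m : ℕ} (q : ℕ) (L : Finset (Finset (Fin m))) : Prop :=
  (∀ l ∈ L, 2 ≤ l.card ∧ l.card ≤ q) ∧
    ∀ l ∈ L, ∀ l' ∈ L, ∀ x y, x ≠ y → x ∈ l → y ∈ l → x ∈ l' → y ∈ l' → l = l'

theorem deg_le {m q : ℕ} {L : Finset (Finset (Fin m))} (hL : PLS q L) (x : Fin m) :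
    (L.filter (fun l => x ∈ l)).card ≤ m := by
  classical
  have h1 : ∀ l : Finset (Fin m), ∃ y : Fin m, l ∈ L.filter (fun l => x ∈ l) → y ∈ l ∧ y ≠ x := by
    intro l
    by_cases hl : l ∈ L.filter (fun l => x ∈ l)
    · obtain ⟨y, hy, hyx⟩ := Finset.exists_mem_ne (by
        have := (hL.1 l (mem_filter.1 hl).1).1; omega : 1 < l.card) x
      exact ⟨y, fun _ => ⟨hy, hyx⟩⟩
    · exact ⟨x, fun h => absurd h hl⟩
  choose f hf using h1
  calc (L.filter (fun l => x ∈ l)).card ≤ (univ : Finset (Fin m)).card := by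
        refine Finset.card_le_card_of_injOn f (fun _ _ => mem_coe.2 (mem_univ _)) ?_
        intro l hl l' hl' h
        have e1 := hf l hl
        have e2 := hf l' hl'
        rw [← h] at e2
        have hl2 := mem_filter.1 (mem_coe.1 hl)
        have hl2' := mem_filter.1 (mem_coe.1 hl')
        exact hL.2 l hl2.1 l' hl2'.1 x (f l) e1.2.symm hl2.2 e1.1 hl2'.2 e2.1
    _ = m := by simp

theorem card_le_sq {m q : ℕ} {L : Finset (Finset (Fin m))} (hL : PLS q L) : L.card ≤ m * m := by
  classical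
  have h : L ⊆ (univ : Finset (Fin m)).biUnion (fun x => L.filter (fun l => x ∈ l)) := by
    intro l hl
    obtain ⟨x, hx⟩ := Finset.card_pos.1 (by have := (hL.1 l hl).1; omega : 0 < l.card)
    exact mem_biUnion.2 ⟨x, mem_univ _, mem_filter.2 ⟨hl, hx⟩⟩
  calc L.card ≤ _ := card_le_card h
    _ ≤ ∑ x : Fin m, (L.filter (fun l => x ∈ l)).card := card_biUnion_le
    _ ≤ ∑ _x : Fin m, m := sum_le_sum fun x _ => deg_le hL x
    _ = m * m := by simp

theorem meet_le {m q : ℕ} {L : Finset (Finset (Fin m))} (hL : PLS q L) {l : Finset (Fin m)}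
    (hl : l.card ≤ q) : (L.filter (fun l' => ∃ x, x ∈ l ∧ x ∈ l')).card ≤ q * m := by
  classical
  have h : L.filter (fun l' => ∃ x, x ∈ l ∧ x ∈ l') ⊆
      l.biUnion (fun x => L.filter (fun l => x ∈ l)) := by
    intro l' hl'
    obtain ⟨h1, x, hx, hx'⟩ := mem_filter.1 hl'
    exact mem_biUnion.2 ⟨x, hx, mem_filter.2 ⟨h1, hx'⟩⟩
  calc (L.filter (fun l' => ∃ x, x ∈ l ∧ x ∈ l')).card ≤ _ := card_le_card h
    _ ≤ ∑ x ∈ l, (L.filter (fun l => x ∈ l)).card := card_biUnion_le
    _ ≤ ∑ _x ∈ l, m := sum_le_sum fun x _ => deg_le hL x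
    _ = l.card * m := by simp
    _ ≤ q * m := Nat.mul_le_mul_right _ hl

/-- the value of the label at position `i` -/
def val {p : ℕ} (c : ZMod p × ZMod p) (i : ℕ) : ZMod p := c.1 + (i : ZMod p) * c.2

theorem labels {m q p : ℕ} [Fact p.Prime] {L : Finset (Finset (Fin m))} (hL : PLS q L)
    (hp : q * q * m + m + 1 ≤ p) (S : Finset (Finset (Fin m))) (hS : S ⊆ L) :
    ∃ lab : Finset (Fin m) → ZMod p × ZMod p, ∀ l ∈ S, ∀ l' ∈ S, l ≠ l' →
      lab l ≠ lab l' ∧ ((∃ x, x ∈ l ∧ x ∈ l') → ∀ i < q, val (lab l) i ≠ val (lab l') i) := by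
  classical
  induction S using Finset.induction_on with
  | empty => exact ⟨fun _ => 0, by simp⟩
  | insert l S hlS ih =>
    obtain ⟨lab, hlab⟩ := ih ((subset_insert _ _).trans hS)
    have hlL : l ∈ L := hS (mem_insert_self _ _)
    let N := L.filter (fun l' => ∃ x, x ∈ l ∧ x ∈ l')
    let bad : Finset (ZMod p × ZMod p) :=
      (N ×ˢ range q).biUnion (fun t => univ.filter (fun c => val c t.2 = val (lab t.1) t.2)) ∪
        S.image lab
    have hfib : ∀ (i : ℕ) (v : ZMod p),
        (univ.filter (fun c : ZMod p × ZMod p => val c i = v)).card ≤ p := by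
      intro i v
      calc (univ.filter (fun c : ZMod p × ZMod p => val c i = v)).card
          ≤ (univ : Finset (ZMod p)).card := by
            refine Finset.card_le_card_of_injOn Prod.snd (fun _ _ => mem_coe.2 (mem_univ _)) ?_
            rintro ⟨c, d⟩ h ⟨c', d'⟩ h' hdd
            have h1 := (mem_filter.1 (mem_coe.1 h)).2
            have h2 := (mem_filter.1 (mem_coe.1 h')).2
            simp only [val] at h1 h2 hdd
            subst hdd
            refine Prod.ext ?_ rfl
            exact add_right_cancel (h1.trans h2.symm)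
        _ = p := by simp [ZMod.card]
    have hbad : bad.card < p * p := by
      have h1 : ((N ×ˢ range q).biUnion
          (fun t => univ.filter (fun c : ZMod p × ZMod p => val c t.2 = val (lab t.1) t.2))).card
          ≤ (q * m) * q * p := by
        calc _ ≤ ∑ t ∈ N ×ˢ range q, (univ.filter (fun c : ZMod p × ZMod p =>
              val c t.2 = val (lab t.1) t.2)).card := card_biUnion_le
          _ ≤ ∑ _t ∈ N ×ˢ range q, p := sum_le_sum fun t _ => hfib _ _
          _ = N.card * q * p := by simp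
          _ ≤ (q * m) * q * p := by
            gcongr
            exact meet_le hL (hL.1 l hlL).2
      have h2 : (S.image lab).card ≤ m * m := by
        calc (S.image lab).card ≤ S.card := card_image_le
          _ ≤ L.card := card_le_card ((subset_insert _ _).trans hS)
          _ ≤ m * m := card_le_sq hL
      calc bad.card ≤ (q * m) * q * p + m * m := (card_union_le _ _).trans (Nat.add_le_add h1 h2)
        _ < p * p := by
          have e1 : (q * q * m + m + 1) * p ≤ p * p := Nat.mul_le_mul_right _ hp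
          have e2 : m ≤ p := by omega
          nlinarith
    obtain ⟨c, hc⟩ : ∃ c, c ∉ bad := by
      by_contra hcon
      push Not at hcon
      have : bad = univ := eq_univ_iff_forall.2 hcon
      rw [this, card_univ, Fintype.card_prod, ZMod.card] at hbad
      exact lt_irrefl _ hbad
    have hc1 : ∀ l' ∈ S, (∃ x, x ∈ l ∧ x ∈ l') → ∀ i < q, val c i ≠ val (lab l') i := by
      intro l' hl' hx i hi h
      apply hc
      refine mem_union_left _ (mem_biUnion.2 ⟨(l', i), ?_, ?_⟩)
      · exact mem_product.2 ⟨mem_filter.2 ⟨hS (mem_insert_of_mem hl'), hx⟩, mem_range.2 hi⟩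
      · exact mem_filter.2 ⟨mem_univ _, h⟩
    have hc2 : ∀ l' ∈ S, c ≠ lab l' := by
      intro l' hl' h
      exact hc (mem_union_right _ (mem_image.2 ⟨l', hl', h.symm⟩))
    refine ⟨Function.update lab l c, ?_⟩
    have hup : ∀ l' ∈ S, Function.update lab l c l' = lab l' := by
      intro l' hl'
      apply Function.update_of_ne
      rintro rfl
      exact hlS hl'
    intro l1 h1 l2 h2 h12
    rcases mem_insert.1 h1 with rfl | h1'
    · rcases mem_insert.1 h2 with rfl | h2'
      · exact absurd rfl h12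
      · rw [Function.update_self, hup l2 h2']
        exact ⟨hc2 l2 h2', hc1 l2 h2'⟩
    · rcases mem_insert.1 h2 with rfl | h2'
      · rw [Function.update_self, hup l1 h1']
        refine ⟨(hc2 l1 h1').symm, ?_⟩
        rintro ⟨x, hx, hx'⟩ i hi
        exact (hc1 l1 h1' ⟨x, hx', hx⟩ i hi).symm
      · rw [hup l1 h1', hup l2 h2']
        exact hlab l1 h1' l2 h2' h12

theorem val_two {p q : ℕ} [Fact p.Prime] (hqp : q ≤ p) {c c' : ZMod p × ZMod p} {i j : ℕ}
    (hi : i < q) (hj : j < q) (hij : i ≠ j) (h1 : val c i = val c' i) (h2 : val c j = val c' j) :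
    c = c' := by
  simp only [val] at h1 h2
  have h3 : ((i : ZMod p) - (j : ZMod p)) * (c.2 - c'.2) = 0 := by linear_combination h1 - h2
  have h4 : (i : ZMod p) - (j : ZMod p) ≠ 0 := by
    intro h
    apply hij
    have := congrArg ZMod.val (sub_eq_zero.1 h)
    rwa [ZMod.val_natCast_of_lt (hi.trans_le hqp), ZMod.val_natCast_of_lt (hj.trans_le hqp)] at this
  have h5 : c.2 = c'.2 := sub_eq_zero.1 ((mul_eq_zero.1 h3).resolve_left h4)
  refine Prod.ext ?_ h5
  rw [h5] at h1
  exact add_right_cancel h1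

theorem ext_part {m q : ℕ} (hm : 1 ≤ m) (hq : 2 ≤ q) {L : Finset (Finset (Fin m))}
    (hL : PLS q L) :
    ∃ m', m' ≤ 5 * q ^ 3 * m ∧ ∃ (h : m ≤ m') (P : Finset (Finset (Fin m'))), Part q P ∧
      (∀ l ∈ L, ∃ b ∈ P, ∀ x, x ∈ l ↔ Fin.castLE h x ∈ b) ∧
      ∀ b ∈ P, ∃ l ∈ L, ∀ x, x ∈ l ↔ Fin.castLE h x ∈ b := by
  classical
  obtain ⟨p, hp, hp1, hp2⟩ := Nat.exists_prime_lt_and_le_two_mul (q * q * m + m) (by positivity)
  have : Fact p.Prime := ⟨hp⟩
  have hqp : q ≤ p := by
    have : q ≤ q * q * m := by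
      rw [mul_assoc]
      exact Nat.le_mul_of_pos_right _ (by positivity)
    omega
  obtain ⟨lab, hlab⟩ := labels hL hp1 L subset_rfl
  let g : Finset (Fin m) → (Fin q ↪ Fin q × ZMod p) := fun l =>
    ⟨fun i => (i, val (lab l) i), fun i j h => congrArg Prod.fst h⟩
  let blk : Finset (Fin m) → Finset (Fin m ⊕ (Fin q × ZMod p)) := fun l =>
    l.disjSum ((univ.filter (fun i : Fin q => i.val < q - l.card)).map (g l))
  have hbl : ∀ l x, Sum.inl x ∈ blk l ↔ x ∈ l := by
    intro l x
    simp [blk]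
  have hbr : ∀ l i v, Sum.inr (i, v) ∈ blk l → v = val (lab l) i := by
    intro l i v h
    simp only [blk, inr_mem_disjSum, mem_map] at h
    obtain ⟨j, -, hj⟩ := h
    have h1 : j = i := congrArg Prod.fst hj
    have h2 : val (lab l) j = v := congrArg Prod.snd hj
    rw [← h2, h1]
  have hbc : ∀ l ∈ L, (blk l).card = q := by
    intro l hl
    have h1 := (hL.1 l hl).2
    simp only [blk, card_disjSum, card_map]
    rw [Fin.card_filter_val_lt]
    omega
  have hpart : ∀ l ∈ L, ∀ l' ∈ L, ∀ z z', z ≠ z' → z ∈ blk l → z' ∈ blk l → z ∈ blk l' →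
      z' ∈ blk l' → l = l' := by
    intro l hl l' hl' z z' hzz h1 h2 h3 h4
    by_contra hne
    obtain ⟨hlab1, hlab2⟩ := hlab l hl l' hl' hne
    rcases z with x | ⟨i, v⟩
    · rcases z' with x' | ⟨j, w⟩
      · rw [hbl] at h1 h2 h3 h4
        exact hne (hL.2 l hl l' hl' x x' (fun h => hzz (by rw [h])) h1 h2 h3 h4)
      · rw [hbl] at h1 h3
        exact hlab2 ⟨x, h1, h3⟩ j j.2 ((hbr _ _ _ h2).symm.trans (hbr _ _ _ h4))
    · rcases z' with x' | ⟨j, w⟩
      · rw [hbl] at h2 h4
        exact hlab2 ⟨x', h2, h4⟩ i i.2 ((hbr _ _ _ h1).symm.trans (hbr _ _ _ h3))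
      · have e1 := hbr _ _ _ h1
        have e2 := hbr _ _ _ h2
        have e3 := hbr _ _ _ h3
        have e4 := hbr _ _ _ h4
        have hij : i.val ≠ j.val := by
          intro h
          have h' : i = j := Fin.ext h
          subst h'
          exact hzz (by rw [e1, e2])
        exact hlab1 (val_two hqp i.2 j.2 hij (e1.symm.trans e3) (e2.symm.trans e4))
  have hcard : Nat.card (Fin m ⊕ (Fin q × ZMod p)) = m + q * p := by
    rw [Nat.card_sum, Nat.card_prod, Nat.card_fin, Nat.card_fin, Nat.card_zmod]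
  obtain ⟨h, e, he⟩ := exists_equiv_ext hcard (Function.Embedding.inl (α := Fin m)
    (β := Fin q × ZMod p))
  have hel : ∀ l x, x ∈ l ↔ Fin.castLE h x ∈ (blk l).map e.toEmbedding := by
    intro l x
    rw [← he x]
    exact (hbl l x).symm.trans (mem_map' e.toEmbedding).symm
  refine ⟨m + q * p, ?_, h, L.image (fun l => (blk l).map e.toEmbedding), ⟨?_, ?_⟩, ?_, ?_⟩
  · have h1 : q * p ≤ q * (2 * (q * q * m + m)) := Nat.mul_le_mul_left _ hp2
    have h2 : q * m ≤ q ^ 3 * m := by
      gcongr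
      exact Nat.le_self_pow (by omega) q
    have h3 : m ≤ q ^ 3 * m := Nat.le_mul_of_pos_left _ (by positivity)
    have h4 : q * (2 * (q * q * m + m)) = 2 * (q ^ 3 * m) + 2 * (q * m) := by ring
    have h5 : 5 * q ^ 3 * m = 5 * (q ^ 3 * m) := by ring
    omega
  · intro b hb
    obtain ⟨l, hl, rfl⟩ := mem_image.1 hb
    rw [card_map]
    exact hbc l hl
  · intro b hb b' hb' x y hxy h1 h2 h3 h4
    obtain ⟨l, hl, rfl⟩ := mem_image.1 hb
    obtain ⟨l', hl', rfl⟩ := mem_image.1 hb'
    obtain ⟨z, hz, rfl⟩ := mem_map.1 h1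
    obtain ⟨z', hz', rfl⟩ := mem_map.1 h2
    rw [mem_map'] at h3 h4
    rw [hpart l hl l' hl' z z' (fun h => hxy (by rw [h])) hz hz' h3 h4]
  · intro l hl
    exact ⟨_, mem_image.2 ⟨l, hl, rfl⟩, hel l⟩
  · intro b hb
    obtain ⟨l, hl, rfl⟩ := mem_image.1 hb
    exact ⟨l, hl, hel l⟩

end Pool.Agent.H424.PS
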