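import Pool.Agent.H424.PS.Ingr

/-!
# A Steiner system containing a given partial system

The points are the weighted points of `k` vertical lines of an affine plane and of `m` points of a
parabola, and one more point.
-/

set_option autoImplicit false

namespace Pool.Agent.H424.PS

open Finset H108 Pool.Agent.W855 Pool.Agent.W865.SS Pool.Agent.X18.SEmb

/-- the family `B` decomposes the graph `E` into cliques with `q` vertices -/
def Dec {Z : Type} (q : ℕ) (E : Z → Z → Prop) (B : Set (Finset Z)) : Prop :=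
  (∀ b ∈ B, b.card = q ∧ ∀ x ∈ b, ∀ y ∈ b, x ≠ y → E x y) ∧
    ∀ x y, x ≠ y → E x y → ∃! b, b ∈ B ∧ x ∈ b ∧ y ∈ b

theorem dec_union {Z J : Type} {q : ℕ} {E : J → Z → Z → Prop} {B : J → Set (Finset Z)}
    (hB : ∀ j, Dec q (E j) (B j)) (hU : ∀ x y, x ≠ y → ∃! j, E j x y) :
    Dec q (fun x y => x ≠ y) (⋃ j, B j) := by
  refine ⟨?_, ?_⟩
  · intro b hb
    obtain ⟨j, hj⟩ := Set.mem_iUnion.1 hb
    exact ⟨((hB j).1 b hj).1, fun x _ y _ h => h⟩
  · intro x y hxy _
    obtain ⟨j, hj, hju⟩ := hU x y hxy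
    obtain ⟨b, ⟨hb1, hb2, hb3⟩, hb4⟩ := (hB j).2 x y hxy hj
    refine ⟨b, ⟨Set.mem_iUnion.2 ⟨j, hb1⟩, hb2, hb3⟩, ?_⟩
    rintro c ⟨hc1, hc2, hc3⟩
    obtain ⟨j', hj'⟩ := Set.mem_iUnion.1 hc1
    have : j' = j := hju j' (((hB j').1 c hj').2 x hc2 y hc3 hxy)
    subst this
    exact hb4 c ⟨hj', hc2, hc3⟩

theorem dec_of_gd {X0 P0 Z : Type} {q : ℕ} {π : X0 → P0} (h : GD {q} π) (f : X0 ↪ Z)
    (E : Z → Z → Prop) (hE : ∀ x y, x ≠ y → (E x y ↔ ∃ u v, f u = x ∧ f v = y ∧ π u ≠ π v)) :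
    ∃ B, Dec q E B := by
  classical
  obtain ⟨B, hB1, hB2⟩ := h
  refine ⟨{b | ∃ c ∈ B, b = c.map f}, ?_, ?_⟩
  · rintro _ ⟨c, hc, rfl⟩
    refine ⟨by rw [card_map]; simpa using (hB1 c hc).1, ?_⟩
    intro x hx y hy hxy
    obtain ⟨u, hu, rfl⟩ := mem_map.1 hx
    obtain ⟨v, hv, rfl⟩ := mem_map.1 hy
    refine (hE _ _ hxy).2 ⟨u, v, rfl, rfl, fun hπ => hxy ?_⟩
    rw [(hB1 c hc).2 (by exact_mod_cast hu) (by exact_mod_cast hv) hπ]
  · intro x y hxy hxyE
    obtain ⟨u, v, rfl, rfl, huv⟩ := (hE _ _ hxy).1 hxyE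
    obtain ⟨b, ⟨hb1, hb2, hb3⟩, hb4⟩ := hB2 u v huv
    refine ⟨b.map f, ⟨⟨b, hb1, rfl⟩, mem_map_of_mem _ hb2, mem_map_of_mem _ hb3⟩, ?_⟩
    rintro _ ⟨⟨c, hc, rfl⟩, hc1, hc2⟩
    rw [mem_map'] at hc1 hc2
    rw [hb4 c ⟨hc, hc1, hc2⟩]

/-- the complete graph on a subset -/
theorem dec_complete {Z : Type} {q n : ℕ} (h : IG {q} 1 n 0) (S : Z → Prop) [Finite {z // S z}]
    (hS : Nat.card {z // S z} = n) : ∃ B, Dec q (fun x y => S x ∧ S y) B := by
  have h1 : GD {q} (id : {z // S z} → {z // S z}) := (ig_id_iff q n hS).2 h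
  refine dec_of_gd h1 (Function.Embedding.subtype S) _ ?_
  intro x y hxy
  constructor
  · rintro ⟨hx, hy⟩
    exact ⟨⟨x, hx⟩, ⟨y, hy⟩, rfl, rfl, fun h => hxy (by simpa using h)⟩
  · rintro ⟨⟨u, hu⟩, ⟨v, hv⟩, rfl, rfl, -⟩
    exact ⟨hu, hv⟩

/-- an orthogonal array with a constant word -/
theorem oa_const {q G : ℕ} (hq : 2 ≤ q) (h : OA q G) (γ : Fin G) :
    ∃ W : Set (Fin q → Fin G), IsOA W ∧ (fun _ => γ) ∈ W := by
  classical
  obtain ⟨W, hW⟩ := h
  obtain ⟨w0, ⟨hw0, -, -⟩, -⟩ := hW ⟨0, by omega⟩ ⟨1, by omega⟩ (by simp) γ γ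
  refine ⟨_, isOA_relabel hW (fun i => Equiv.swap (w0 i) γ), w0, hw0, ?_⟩
  funext i
  simp

section Plane

variable {F : Type} [Field F] {k m G q : ℕ} (a : Fin k → F) (ξ : Fin m → F)

/-- first coordinate -/
def cx : (Fin k × F) ⊕ Fin m → F := Sum.elim (fun p => a p.1) ξ

/-- second coordinate -/
def hx : (Fin k × F) ⊕ Fin m → F := Sum.elim (fun p => p.2) (fun x => ξ x ^ 2)

/-- the point `y` is on the line `l` -/
def onL (l : F × F) (y : (Fin k × F) ⊕ Fin m) : Prop := hx ξ y = l.1 * cx a ξ y + l.2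

variable {a ξ}

theorem onL_exists {y y' : (Fin k × F) ⊕ Fin m} (h : cx a ξ y ≠ cx a ξ y') :
    ∃ l, onL a ξ l y ∧ onL a ξ l y' := by
  have h1 : cx a ξ y - cx a ξ y' ≠ 0 := sub_ne_zero.2 h
  refine ⟨((hx ξ y - hx ξ y') / (cx a ξ y - cx a ξ y'),
    hx ξ y - (hx ξ y - hx ξ y') / (cx a ξ y - cx a ξ y') * cx a ξ y), ?_, ?_⟩
  · simp only [onL]; ring
  · simp only [onL]
    field_simp
    ring

theorem onL_unique {y y' : (Fin k × F) ⊕ Fin m} (h : cx a ξ y ≠ cx a ξ y') {l l' : F × F}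
    (h1 : onL a ξ l y) (h2 : onL a ξ l y') (h3 : onL a ξ l' y) (h4 : onL a ξ l' y') : l = l' := by
  simp only [onL] at h1 h2 h3 h4
  have h5 : (l.1 - l'.1) * (cx a ξ y - cx a ξ y') = 0 := by linear_combination h3 - h4 - h1 + h2
  have h6 : l.1 = l'.1 := by
    rcases mul_eq_zero.1 h5 with h | h'
    · exact sub_eq_zero.1 h
    · exact absurd (sub_eq_zero.1 h') h
  refine Prod.ext h6 ?_
  rw [h6] at h1
  linear_combination h3 - h1

theorem onL_inj (ha : Function.Injective a) (hξ : Function.Injective ξ) (hd : ∀ i x, a i ≠ ξ x)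
    {l : F × F} {y y' : (Fin k × F) ⊕ Fin m} (h1 : onL a ξ l y) (h2 : onL a ξ l y')
    (h : cx a ξ y = cx a ξ y') : y = y' := by
  rcases y with ⟨i, z⟩ | x <;> rcases y' with ⟨j, z'⟩ | x'
  · simp only [cx, Sum.elim_inl] at h
    have hij := ha h
    subst hij
    simp only [onL, hx, cx, Sum.elim_inl] at h1 h2
    rw [h1, h2]
  · exact absurd h (hd i x')
  · exact absurd h.symm (hd j x)
  · exact congrArg Sum.inr (hξ h)

/-- at most two points of the parabola on a line -/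
theorem three_parabola (hξ : Function.Injective ξ) {l : F × F} {x y z : Fin m} (hxy : x ≠ y)
    (hxz : x ≠ z) (hyz : y ≠ z) (h1 : onL a ξ l (Sum.inr x)) (h2 : onL a ξ l (Sum.inr y))
    (h3 : onL a ξ l (Sum.inr z)) : False := by
  simp only [onL, hx, cx, Sum.elim_inr] at h1 h2 h3
  have e1 : (ξ x - ξ y) * (ξ x + ξ y - l.1) = 0 := by linear_combination h1 - h2
  have e2 : (ξ x - ξ z) * (ξ x + ξ z - l.1) = 0 := by linear_combination h1 - h3
  have f1 : ξ x + ξ y - l.1 = 0 :=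
    (mul_eq_zero.1 e1).resolve_left (sub_ne_zero.2 fun h => hxy (hξ h))
  have f2 : ξ x + ξ z - l.1 = 0 :=
    (mul_eq_zero.1 e2).resolve_left (sub_ne_zero.2 fun h => hxz (hξ h))
  exact hyz (hξ (by linear_combination f1 - f2))

/-- two points of the parabola which lie in a common block of `P` -/
def cov (P : Finset (Finset (Fin m))) (y y' : (Fin k × F) ⊕ Fin m) : Prop :=
  ∃ x x', y = Sum.inr x ∧ y' = Sum.inr x' ∧ ∃ b ∈ P, x ∈ b ∧ x' ∈ b

variable (a ξ) in
/-- the pairs treated by the line `l` -/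
def EL (P : Finset (Finset (Fin m))) (l : F × F)
    (p p' : Option (((Fin k × F) ⊕ Fin m) × Fin G)) : Prop :=
  ∃ y γ y' γ', p = some (y, γ) ∧ p' = some (y', γ') ∧ onL a ξ l y ∧ onL a ξ l y' ∧ y ≠ y' ∧
    ¬ cov P y y'

theorem dec_line (hξ : Function.Injective ξ)
    (h0 : IG {q} G k 0) (h1 : IG {q} G (k + 1) 0)
    (h2 : IG {q} G (k + 2) 0) (h3 : IG {q} G k (G * 2)) (P : Finset (Finset (Fin m)))
    (l : F × F) : ∃ B, Dec q (EL (G := G) a ξ P l) B := by
  classical
  let S : Type := {x : Fin m // onL a ξ l (Sum.inr x)}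
  have hS2 : Nat.card S ≤ 2 := by
    by_contra hcon
    push Not at hcon
    rw [Nat.card_eq_fintype_card, ← Finset.card_univ] at hcon
    obtain ⟨x, y, z, -, -, -, hxy, hxz, hyz⟩ := Finset.two_lt_card_iff.1 hcon
    exact three_parabola hξ (fun h => hxy (Subtype.ext h)) (fun h => hxz (Subtype.ext h))
      (fun h => hyz (Subtype.ext h)) x.2 y.2 z.2
  let ι : Fin k ⊕ S → (Fin k × F) ⊕ Fin m :=
    Sum.map (fun i => (i, l.1 * a i + l.2)) Subtype.val
  have hι : Function.Injective ι := by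
    refine Function.Injective.sumMap ?_ Subtype.val_injective
    intro i j h
    exact congrArg Prod.fst h
  have hιL : ∀ y, onL a ξ l y ↔ ∃ u, ι u = y := by
    intro y
    constructor
    · intro h
      rcases y with ⟨i, z⟩ | x
      · refine ⟨Sum.inl i, ?_⟩
        simp only [onL, hx, cx, Sum.elim_inl] at h
        simp only [ι, Sum.map_inl]
        rw [h]
      · exact ⟨Sum.inr ⟨x, h⟩, rfl⟩
    · rintro ⟨i | x, rfl⟩
      · exact rfl
      · exact x.2
  let f : ((Fin k ⊕ S) × Fin G) ↪ Option (((Fin k × F) ⊕ Fin m) × Fin G) :=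
    ⟨fun p => some (ι p.1, p.2), by
      rintro ⟨u, γ⟩ ⟨u', γ'⟩ h
      simp only [Option.some.injEq, Prod.mk.injEq] at h
      rw [hι h.1, h.2]⟩
  have hf : ∀ p, f p = some (ι p.1, p.2) := fun p => rfl
  by_cases hA : ∃ x x' : S, x ≠ x' ∧ ∃ b ∈ P, x.1 ∈ b ∧ x'.1 ∈ b
  · -- the line carries a covered pair
    obtain ⟨x0, x1, hx01, b, hb, hb0, hb1⟩ := hA
    have hS : Nat.card S = 2 := by
      refine le_antisymm hS2 ?_
      rw [Nat.card_eq_fintype_card]
      exact Fintype.one_lt_card_iff.2 ⟨x0, x1, hx01⟩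
    have hSx : ∀ x : S, x = x0 ∨ x = x1 := by
      intro x
      by_contra hcon
      push Not at hcon
      exact three_parabola hξ (fun h => hcon.1 (Subtype.ext h)) (fun h => hcon.2 (Subtype.ext h))
        (fun h => hx01 (Subtype.ext h)) x.2 x0.2 x1.2
    let ρ : (Fin k ⊕ S) × Fin G → Option (Fin k) := fun p => Sum.elim some (fun _ => none) p.1
    have hρ : GD {q} ρ := by
      refine (ig_of_fibers (g := G) (a := k) (w := G * 2) ?_ (by simp) ?_).2 h3
      · intro i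
        have e : {y : (Fin k ⊕ S) × Fin G // ρ y = some i} ≃ Fin G :=
          { toFun := fun y => y.1.2
            invFun := fun γ => ⟨(Sum.inl i, γ), rfl⟩
            left_inv := by
              rintro ⟨⟨j | x, γ⟩, h⟩
              · have : j = i := by simpa [ρ] using h
                subst this
                rfl
              · simp [ρ] at h
            right_inv := fun γ => rfl }
        rw [Nat.card_congr e, Nat.card_fin]
      · have e : {y : (Fin k ⊕ S) × Fin G // ρ y = none} ≃ S × Fin G :=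
          { toFun := fun y => match y with
              | ⟨(Sum.inl j, γ), h⟩ => absurd h (by simp [ρ])
              | ⟨(Sum.inr x, γ), _⟩ => (x, γ)
            invFun := fun γ => ⟨(Sum.inr γ.1, γ.2), rfl⟩
            left_inv := by
              rintro ⟨⟨j | x, γ⟩, h⟩
              · simp [ρ] at h
              · rfl
            right_inv := fun γ => rfl }
        rw [Nat.card_congr e, Nat.card_prod, Nat.card_fin, hS, mul_comm]
    refine dec_of_gd hρ f _ ?_
    intro p p' _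
    constructor
    · rintro ⟨y, γ, y', γ', rfl, rfl, hy, hy', hyy, hc⟩
      obtain ⟨u, rfl⟩ := (hιL y).1 hy
      obtain ⟨v, rfl⟩ := (hιL y').1 hy'
      refine ⟨(u, γ), (v, γ'), rfl, rfl, ?_⟩
      rcases u with i | x <;> rcases v with j | x'
      · intro h
        have : i = j := by simpa [ρ] using h
        exact hyy (by rw [this])
      · simp [ρ]
      · simp [ρ]
      · exfalso
        apply hc
        have hxx : x ≠ x' := fun h => hyy (by rw [h])
        rcases hSx x with rfl | rfl <;> rcases hSx x' with rfl | rfl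
        · exact absurd rfl hxx
        · exact ⟨_, _, rfl, rfl, b, hb, hb0, hb1⟩
        · exact ⟨_, _, rfl, rfl, b, hb, hb1, hb0⟩
        · exact absurd rfl hxx
    · rintro ⟨⟨u, γ⟩, ⟨v, γ'⟩, rfl, rfl, hρ'⟩
      refine ⟨ι u, γ, ι v, γ', rfl, rfl, (hιL _).2 ⟨u, rfl⟩, (hιL _).2 ⟨v, rfl⟩, ?_, ?_⟩
      · intro h
        apply hρ'
        simp only [ρ]
        rw [hι h]
      · rintro ⟨x, x', h1, h2, -⟩
        apply hρ'
        rcases u with i | u
        · simp [ι] at h1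
        · rcases v with i | v
          · simp [ι] at h2
          · rfl
  · -- no covered pair
    have hk : IG {q} G (k + Nat.card S) 0 := by
      have : Nat.card S = 0 ∨ Nat.card S = 1 ∨ Nat.card S = 2 := by omega
      rcases this with h | h | h <;> rw [h] <;> assumption
    have hρ : GD {q} (Prod.fst : (Fin k ⊕ S) × Fin G → Fin k ⊕ S) := by
      refine (ig_of_fibers0 (g := G) (a := k + Nat.card S) ?_ ?_).2 hk
      · intro u
        have e : {y : (Fin k ⊕ S) × Fin G // y.1 = u} ≃ Fin G :=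
          { toFun := fun y => y.1.2
            invFun := fun γ => ⟨(u, γ), rfl⟩
            left_inv := by
              rintro ⟨⟨v, γ⟩, rfl⟩
              rfl
            right_inv := fun γ => rfl }
        rw [Nat.card_congr e, Nat.card_fin]
      · rw [Nat.card_sum, Nat.card_fin]
    refine dec_of_gd hρ f _ ?_
    intro p p' _
    constructor
    · rintro ⟨y, γ, y', γ', rfl, rfl, hy, hy', hyy, hc⟩
      obtain ⟨u, rfl⟩ := (hιL y).1 hy
      obtain ⟨v, rfl⟩ := (hιL y').1 hy'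
      exact ⟨(u, γ), (v, γ'), rfl, rfl, fun h => hyy (congrArg ι h)⟩
    · rintro ⟨⟨u, γ⟩, ⟨v, γ'⟩, rfl, rfl, hρ'⟩
      refine ⟨ι u, γ, ι v, γ', rfl, rfl, (hιL _).2 ⟨u, rfl⟩, (hιL _).2 ⟨v, rfl⟩,
        fun h => hρ' (hι h), ?_⟩
      rintro ⟨x, x', h1, h2, b, hb, hbx, hbx'⟩
      apply hA
      rcases u with i | u
      · simp [ι] at h1
      · rcases v with i | v
        · simp [ι] at h2
        · have e1 : u.1 = x := by simpa [ι] using h1
          have e2 : v.1 = x' := by simpa [ι] using h2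
          exact ⟨u, v, fun h => hρ' (by rw [h]), b, hb, by rw [e1]; exact hbx,
            by rw [e2]; exact hbx'⟩

end Plane

end Pool.Agent.H424.PS
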