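import Pool.Graph.R_pool_sql_team_seeded_64922ed1.X18.SteinerEmb2

/-!
# Group divisible designs with one double group: the ingredients
-/

set_option autoImplicit false

namespace Pool.Agent.H424.PS

open Finset H108 Pool.Agent.W855 Pool.Agent.W865.SS Pool.Agent.X18.SEmb

/-- the ingredients of the construction, all of size polynomial in the threshold `N` -/
theorem ingr : ∃ E : ℕ, ∀ q N : ℕ, 3 ≤ q → q ≤ N → Thr q N → ∃ G k : ℕ,
    1 ≤ G ∧ G ≤ N ^ E ∧ k ≤ N ^ E ∧ q * (q - 1) ∣ G ∧ N ≤ G ∧ OA q G ∧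
    IG {q} G k 0 ∧ IG {q} G (k + 1) 0 ∧ IG {q} G (k + 2) 0 ∧ IG {q} G k (G * 2) := by
  obtain ⟨C, hC, hT⟩ := td_gen
  obtain ⟨c, hc⟩ := thmD hT hC
  refine ⟨(2 * C + 4) + ((C + 2) * c + ((C + 2) * c + 1) * C), ?_⟩
  intro q N hq hqN hthr
  have hN3 : 3 ≤ N := hq.trans hqN
  have hN1 : 1 ≤ N := by omega
  obtain ⟨r, hr⟩ : ∃ r, r = q * N ^ C := ⟨_, rfl⟩
  have hNC : N ≤ N ^ C := Nat.le_self_pow (by omega) N
  have hqC : q ^ C ≤ N ^ C := Nat.pow_le_pow_left hqN C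
  have hrC : N ^ C ≤ r := by rw [hr]; exact Nat.le_mul_of_pos_left _ (by omega)
  have hr1 : q ^ C ≤ r := hqC.trans hrC
  have hrN : N ≤ r := hNC.trans hrC
  have hr0 : 0 < r := by omega
  have hqr : r ≤ q * r := Nat.le_mul_of_pos_left _ (by omega)
  have hg : r ≤ (q - 1) * r := Nat.le_mul_of_pos_left _ (by omega)
  have h1 : IG {q} ((q - 1) * r) q 0 := ig_of_oa (hT q (by omega) _ (hr1.trans hg))
  have h2 : IG {q} ((q - 1) * r) r 0 := by
    have := ig_inflateO (c := r) (hT q (by omega) r hr1)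
      (rr_of hq hthr hrN (by rw [hr]; exact ar_zero _))
    simpa using this
  have h3 : IG {q} ((q - 1) * r) (q * r + 1) 0 := by
    have := ig_inflateO (c := r) (hT q (by omega) r hr1)
      (rr_of hq hthr (by omega : N ≤ q * r + 1) (ar_one (by omega) r))
    simpa using this
  have hE := hc q hq r hr1 ((q - 1) * r) h1 h2 h3
  obtain ⟨G, hG⟩ : ∃ G, G = (q - 1) * r * (q * r) := ⟨_, rfl⟩
  rw [← hG] at hE
  obtain ⟨U, hU⟩ : ∃ U, U = (q * r) ^ c := ⟨_, rfl⟩
  rw [← hU] at hE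
  have hU1 : 1 ≤ U := by rw [hU]; exact Nat.one_le_pow _ _ (by omega)
  obtain ⟨t, ht⟩ : ∃ t, t = (U + 1) ^ C := ⟨_, rfl⟩
  have htU : U + 1 ≤ t := by rw [ht]; exact Nat.le_self_pow (by omega) _
  have hUt : U ≤ U * t := Nat.le_mul_of_pos_right _ (by omega)
  have hGr : r ≤ G := by
    rw [hG]
    exact hg.trans (Nat.le_mul_of_pos_right _ (by omega))
  -- bounds
  have b1 : q * r ≤ N ^ (C + 2) := by
    rw [hr, pow_add, pow_two]
    calc q * (q * N ^ C) ≤ N * (N * N ^ C) := by gcongr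
      _ = N ^ C * (N * N) := by ring
  have b2 : G ≤ N ^ (2 * C + 4) := by
    rw [hG]
    calc (q - 1) * r * (q * r) ≤ (q * r) * (q * r) := by gcongr; omega
      _ ≤ N ^ (C + 2) * N ^ (C + 2) := by gcongr
      _ = N ^ (2 * C + 4) := by rw [← pow_add]; congr 1; ring
  have b3 : U ≤ N ^ ((C + 2) * c) := by
    rw [hU, pow_mul]
    exact Nat.pow_le_pow_left b1 c
  have b4 : U + 1 ≤ N ^ ((C + 2) * c + 1) := by
    rw [pow_succ]
    nlinarith
  have b5 : t ≤ N ^ (((C + 2) * c + 1) * C) := by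
    rw [ht, pow_mul]
    exact Nat.pow_le_pow_left b4 C
  have b6 : U * t ≤ N ^ ((C + 2) * c + ((C + 2) * c + 1) * C) := by
    rw [pow_add]
    exact Nat.mul_le_mul b3 b5
  refine ⟨G, U * t, by omega, b2.trans (Nat.pow_le_pow_right hN1 (by omega)),
    b6.trans (Nat.pow_le_pow_right hN1 (by omega)), ⟨r * r, by rw [hG]; ring⟩, hrN.trans hGr,
    hT q (by omega) G (hr1.trans hGr), hE _ hUt, hE _ (by omega), hE _ (by omega), ?_⟩
  exact hb_trunc (hE U le_rfl) (hE (U + 1) (by omega))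
    (hT (U + 1) (by omega) t (by rw [ht])) (hE t (by omega)) (by omega)

end Pool.Agent.H424.PS
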