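import Pool.Agent.H424.PS.Geom

/-!
# A Steiner system containing a given partial system: assembly
-/

set_option autoImplicit false

namespace Pool.Agent.H424.PS

open Finset H108 Pool.Agent.W855 Pool.Agent.W865.SS Pool.Agent.X18.SEmb

section Plane

variable {F : Type} [Field F] {k m G q : ℕ} {a : Fin k → F} {ξ : Fin m → F}

variable (F k) in
/-- the points of the parabola at the level `γ` -/
def lev (γ : Fin G) : Fin m ↪ Option (((Fin k × F) ⊕ Fin m) × Fin G) :=
  ⟨fun x => some (Sum.inr x, γ), by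
    intro x y h
    simpa using h⟩

variable (F k G) in
/-- the pairs treated by the block `b` of `P` -/
def EP (b : Finset (Fin m)) (p p' : Option (((Fin k × F) ⊕ Fin m) × Fin G)) : Prop :=
  ∃ x γ x' γ', p = some (Sum.inr x, γ) ∧ p' = some (Sum.inr x', γ') ∧ x ∈ b ∧ x' ∈ b ∧ x ≠ x'

omit [Field F] in
theorem dec_td (hq : 2 ≤ q) (hO : OA q G) (γ0 : Fin G) (b : Finset (Fin m)) (hb : b.card = q) :
    ∃ B, Dec q (EP F k G b) B ∧ b.map (lev F k γ0) ∈ B := by
  classical
  obtain ⟨W, hW, hW0⟩ := oa_const hq hO γ0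
  let e : Fin q ≃ b := (b.equivFinOfCardEq hb).symm
  let g : (Fin q → Fin G) → (Fin q ↪ Option (((Fin k × F) ⊕ Fin m) × Fin G)) := fun w =>
    ⟨fun i => some (Sum.inr (e i).1, w i), by
      intro i j h
      simp only [Option.some.injEq, Prod.mk.injEq, Sum.inr.injEq] at h
      exact e.injective (Subtype.ext h.1)⟩
  have hg : ∀ w i, g w i = some (Sum.inr (e i).1, w i) := fun w i => rfl
  refine ⟨{c | ∃ w ∈ W, c = univ.map (g w)}, ⟨?_, ?_⟩, ?_⟩
  · rintro _ ⟨w, hw, rfl⟩
    refine ⟨by simp, ?_⟩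
    intro p hp p' hp' hpp
    obtain ⟨i, -, rfl⟩ := mem_map.1 hp
    obtain ⟨j, -, rfl⟩ := mem_map.1 hp'
    refine ⟨(e i).1, w i, (e j).1, w j, rfl, rfl, (e i).2, (e j).2, ?_⟩
    intro h
    apply hpp
    rw [e.injective (Subtype.ext h)]
  · rintro p p' - ⟨x, γ, x', γ', rfl, rfl, hx, hx', hxx⟩
    obtain ⟨i, hi⟩ := e.surjective ⟨x, hx⟩
    obtain ⟨j, hj⟩ := e.surjective ⟨x', hx'⟩
    have hij : i ≠ j := by
      rintro rfl
      rw [hi] at hj
      exact hxx (congrArg Subtype.val hj)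
    obtain ⟨w, ⟨hw, hwi, hwj⟩, hwu⟩ := hW i j hij γ γ'
    refine ⟨univ.map (g w), ⟨⟨w, hw, rfl⟩, ?_, ?_⟩, ?_⟩
    · exact mem_map.2 ⟨i, mem_univ _, by rw [hg, hi, hwi]⟩
    · exact mem_map.2 ⟨j, mem_univ _, by rw [hg, hj, hwj]⟩
    · rintro _ ⟨⟨v, hv, rfl⟩, h1, h2⟩
      obtain ⟨i', -, hi'⟩ := mem_map.1 h1
      obtain ⟨j', -, hj'⟩ := mem_map.1 h2
      rw [hg] at hi' hj'
      simp only [Option.some.injEq, Prod.mk.injEq, Sum.inr.injEq] at hi' hj'
      have e1 : i' = i := e.injective (Subtype.ext (by rw [hi'.1, hi]))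
      have e2 : j' = j := e.injective (Subtype.ext (by rw [hj'.1, hj]))
      rw [e1] at hi'
      rw [e2] at hj'
      rw [hwu v ⟨hv, hi'.2, hj'.2⟩]
  · refine ⟨_, hW0, ?_⟩
    ext p
    simp only [mem_map, mem_univ, true_and, hg]
    constructor
    · rintro ⟨x, hx, rfl⟩
      obtain ⟨i, hi⟩ := e.surjective ⟨x, hx⟩
      exact ⟨i, by rw [hi]; rfl⟩
    · rintro ⟨i, rfl⟩
      exact ⟨(e i).1, (e i).2, rfl⟩

variable (F k G m) in
/-- the points over a vertical line, and `none` -/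
def SV (i : Fin k) (p : Option (((Fin k × F) ⊕ Fin m) × Fin G)) : Prop :=
  p = none ∨ ∃ z γ, p = some (Sum.inl (i, z), γ)

variable (F k G) in
/-- the points over a point of the parabola, and `none` -/
def SX (x : Fin m) (p : Option (((Fin k × F) ⊕ Fin m) × Fin G)) : Prop :=
  p = none ∨ ∃ γ, p = some (Sum.inr x, γ)

omit [Field F] in
theorem card_SV [Fintype F] (i : Fin k) :
    Nat.card {p // SV F k m G i p} = G * Fintype.card F + 1 := by
  have e : {p // SV F k m G i p} ≃ Option (F × Fin G) :=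
    { toFun := fun p => match p with
        | ⟨none, _⟩ => none
        | ⟨some (Sum.inl (_, z), γ), _⟩ => some (z, γ)
        | ⟨some (Sum.inr _, _), _⟩ => none
      invFun := fun p => match p with
        | none => ⟨none, Or.inl rfl⟩
        | some (z, γ) => ⟨some (Sum.inl (i, z), γ), Or.inr ⟨z, γ, rfl⟩⟩
      left_inv := by
        rintro ⟨_ | ⟨⟨j, z⟩ | x, γ⟩, h⟩
        · rfl
        · rcases h with h | ⟨z', γ', h⟩
          · simp at h
          · simp only [Option.some.injEq, Prod.mk.injEq, Sum.inl.injEq] at h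
            obtain ⟨⟨rfl, rfl⟩, rfl⟩ := h
            rfl
        · exfalso
          rcases h with h | ⟨z', γ', h⟩
          · simp at h
          · simp at h
      right_inv := by
        rintro (_ | ⟨z, γ⟩) <;> rfl }
  rw [Nat.card_congr e, Finite.card_option, Nat.card_prod, Nat.card_fin, Nat.card_eq_fintype_card,
    mul_comm]

omit [Field F] in
theorem card_SX (x : Fin m) : Nat.card {p // SX F k G x p} = G + 1 := by
  have e : {p // SX F k G x p} ≃ Option (Fin G) :=
    { toFun := fun p => match p with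
        | ⟨none, _⟩ => none
        | ⟨some (_, γ), _⟩ => some γ
      invFun := fun p => match p with
        | none => ⟨none, Or.inl rfl⟩
        | some γ => ⟨some (Sum.inr x, γ), Or.inr ⟨γ, rfl⟩⟩
      left_inv := by
        rintro ⟨_ | ⟨y, γ⟩, h⟩
        · rfl
        · rcases h with h | ⟨γ', h⟩
          · simp at h
          · simp only [Option.some.injEq, Prod.mk.injEq] at h
            obtain ⟨rfl, rfl⟩ := h
            rfl
      right_inv := by
        rintro (_ | γ) <;> rfl }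
  rw [Nat.card_congr e, Finite.card_option, Nat.card_fin]

variable (a ξ G) in
/-- all pairs, sorted -/
def EE (P : Finset (Finset (Fin m))) (j : Fin k ⊕ Fin m ⊕ (F × F) ⊕ {b // b ∈ P})
    (p p' : Option (((Fin k × F) ⊕ Fin m) × Fin G)) : Prop :=
  match j with
  | Sum.inl i => SV F k m G i p ∧ SV F k m G i p'
  | Sum.inr (Sum.inl x) => SX F k G x p ∧ SX F k G x p'
  | Sum.inr (Sum.inr (Sum.inl l)) => EL a ξ P l p p'
  | Sum.inr (Sum.inr (Sum.inr b)) => EP F k G b.1 p p'

omit [Field F] in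
theorem cov_symm {P : Finset (Finset (Fin m))} {y y' : (Fin k × F) ⊕ Fin m} (h : cov P y y') :
    cov P y' y := by
  obtain ⟨x, x', h1, h2, b, hb, hx, hx'⟩ := h
  exact ⟨x', x, h2, h1, b, hb, hx', hx⟩

theorem EE_symm {P : Finset (Finset (Fin m))} {j : Fin k ⊕ Fin m ⊕ (F × F) ⊕ {b // b ∈ P}}
    {p p' : Option (((Fin k × F) ⊕ Fin m) × Fin G)} (h : EE G a ξ P j p p') :
    EE G a ξ P j p' p := by
  rcases j with i | x | l | b
  · exact ⟨h.2, h.1⟩
  · exact ⟨h.2, h.1⟩
  · obtain ⟨y, γ, y', γ', h1, h2, h3, h4, h5, h6⟩ := h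
    exact ⟨y', γ', y, γ, h2, h1, h4, h3, h5.symm, fun h => h6 (cov_symm h)⟩
  · obtain ⟨x, γ, x', γ', h1, h2, h3, h4, h5⟩ := h
    exact ⟨x', γ', x, γ, h2, h1, h4, h3, h5.symm⟩

theorem EE_none {P : Finset (Finset (Fin m))} (y : (Fin k × F) ⊕ Fin m) (γ : Fin G) :
    ∃! j, EE G a ξ P j none (some (y, γ)) := by
  rcases y with ⟨i, z⟩ | x
  · refine ⟨Sum.inl i, ⟨Or.inl rfl, Or.inr ⟨z, γ, rfl⟩⟩, ?_⟩
    rintro (i' | x | l | b) h
    · obtain ⟨-, h | ⟨z', γ', h⟩⟩ := h
      · simp at h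
      · simp only [Option.some.injEq, Prod.mk.injEq, Sum.inl.injEq] at h
        rw [h.1.1]
    · obtain ⟨-, h | ⟨γ', h⟩⟩ := h
      · simp at h
      · simp at h
    · obtain ⟨y, γ, y', γ', h1, -⟩ := h
      simp at h1
    · obtain ⟨x, γ, x', γ', h1, -⟩ := h
      simp at h1
  · refine ⟨Sum.inr (Sum.inl x), ⟨Or.inl rfl, Or.inr ⟨γ, rfl⟩⟩, ?_⟩
    rintro (i' | x' | l | b) h
    · obtain ⟨-, h | ⟨z', γ', h⟩⟩ := h
      · simp at h
      · simp at h
    · obtain ⟨-, h | ⟨γ', h⟩⟩ := h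
      · simp at h
      · simp only [Option.some.injEq, Prod.mk.injEq, Sum.inr.injEq] at h
        rw [h.1]
    · obtain ⟨y, γ, y', γ', h1, -⟩ := h
      simp at h1
    · obtain ⟨x, γ, x', γ', h1, -⟩ := h
      simp at h1

/-- the case of a line -/
theorem EE_line {P : Finset (Finset (Fin m))} {y y' : (Fin k × F) ⊕ Fin m} (γ γ' : Fin G)
    (h : cx a ξ y ≠ cx a ξ y') (hc : ¬ cov P y y') :
    ∃! j, EE G a ξ P j (some (y, γ)) (some (y', γ')) := by
  obtain ⟨l, hl1, hl2⟩ := onL_exists h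
  have hyy : y ≠ y' := fun e => h (by rw [e])
  refine ⟨Sum.inr (Sum.inr (Sum.inl l)), ⟨y, γ, y', γ', rfl, rfl, hl1, hl2, hyy, hc⟩, ?_⟩
  rintro (i | x | l' | b) hj
  · obtain ⟨h1 | ⟨z, δ, h1⟩, h2 | ⟨z', δ', h2⟩⟩ := hj
    · simp at h1
    · simp at h1
    · simp at h2
    · simp only [Option.some.injEq, Prod.mk.injEq] at h1 h2
      exfalso
      apply h
      rw [h1.1, h2.1]
      rfl
  · obtain ⟨h1 | ⟨δ, h1⟩, h2 | ⟨δ', h2⟩⟩ := hj
    · simp at h1
    · simp at h1
    · simp at h2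
    · simp only [Option.some.injEq, Prod.mk.injEq] at h1 h2
      exact absurd (h1.1.trans h2.1.symm) hyy
  · obtain ⟨u, δ, u', δ', h1, h2, h3, h4, -⟩ := hj
    simp only [Option.some.injEq, Prod.mk.injEq] at h1 h2
    obtain ⟨rfl, rfl⟩ := h1
    obtain ⟨rfl, rfl⟩ := h2
    rw [onL_unique h hl1 hl2 h3 h4]
  · obtain ⟨x, δ, x', δ', h1, h2, h3, h4, -⟩ := hj
    simp only [Option.some.injEq, Prod.mk.injEq] at h1 h2
    exact absurd ⟨x, x', h1.1, h2.1, b.1, b.2, h3, h4⟩ hc

theorem EE_unique (ha : Function.Injective a) (hξ : Function.Injective ξ) (hd : ∀ i x, a i ≠ ξ x)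
    {P : Finset (Finset (Fin m))}
    (hP : ∀ b ∈ P, ∀ b' ∈ P, ∀ x y, x ≠ y → x ∈ b → y ∈ b → x ∈ b' → y ∈ b' → b = b')
    {p p' : Option (((Fin k × F) ⊕ Fin m) × Fin G)} (hpp : p ≠ p') :
    ∃! j, EE G a ξ P j p p' := by
  rcases p with _ | ⟨y, γ⟩
  · rcases p' with _ | ⟨y', γ'⟩
    · exact absurd rfl hpp
    · exact EE_none y' γ'
  · rcases p' with _ | ⟨y', γ'⟩
    · obtain ⟨j, hj, hju⟩ := EE_none (a := a) (ξ := ξ) (P := P) y γ
      exact ⟨j, EE_symm hj, fun j' hj' => hju j' (EE_symm hj')⟩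
    · by_cases hc : cx a ξ y = cx a ξ y'
      · rcases y with ⟨i, z⟩ | x
        · rcases y' with ⟨i', z'⟩ | x'
          · have hii : i = i' := ha hc
            subst hii
            refine ⟨Sum.inl i, ⟨Or.inr ⟨z, γ, rfl⟩, Or.inr ⟨z', γ', rfl⟩⟩, ?_⟩
            rintro (i' | x | l | b) h
            · obtain ⟨h | ⟨z', γ', h⟩, -⟩ := h
              · simp at h
              · simp only [Option.some.injEq, Prod.mk.injEq, Sum.inl.injEq] at h
                rw [h.1.1]
            · obtain ⟨h | ⟨γ', h⟩, -⟩ := h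
              · simp at h
              · simp at h
            · exfalso
              obtain ⟨u, δ, u', δ', h1, h2, h3, h4, h5, -⟩ := h
              simp only [Option.some.injEq, Prod.mk.injEq] at h1 h2
              obtain ⟨rfl, rfl⟩ := h1
              obtain ⟨rfl, rfl⟩ := h2
              exact h5 (onL_inj ha hξ hd h3 h4 rfl)
            · obtain ⟨x, δ, x', δ', h1, -⟩ := h
              simp at h1
          · exact absurd hc (hd i x')
        · rcases y' with ⟨i', z'⟩ | x'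
          · exact absurd hc.symm (hd i' x)
          · have hxx : x = x' := hξ hc
            subst hxx
            refine ⟨Sum.inr (Sum.inl x), ⟨Or.inr ⟨γ, rfl⟩, Or.inr ⟨γ', rfl⟩⟩, ?_⟩
            rintro (i' | x' | l | b) h
            · obtain ⟨h | ⟨z', γ', h⟩, -⟩ := h
              · simp at h
              · simp at h
            · obtain ⟨h | ⟨γ', h⟩, -⟩ := h
              · simp at h
              · simp only [Option.some.injEq, Prod.mk.injEq, Sum.inr.injEq] at h
                rw [h.1]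
            · exfalso
              obtain ⟨u, δ, u', δ', h1, h2, h3, h4, h5, -⟩ := h
              simp only [Option.some.injEq, Prod.mk.injEq] at h1 h2
              exact h5 (h1.1.symm.trans h2.1)
            · exfalso
              obtain ⟨x1, δ, x2, δ', h1, h2, -, -, h5⟩ := h
              simp only [Option.some.injEq, Prod.mk.injEq, Sum.inr.injEq] at h1 h2
              exact h5 (h1.1.symm.trans h2.1)
      · by_cases hcov : cov P y y'
        · obtain ⟨x, x', rfl, rfl, b, hb, hx, hx'⟩ := hcov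
          have hxx : x ≠ x' := fun e => hc (by rw [e])
          refine ⟨Sum.inr (Sum.inr (Sum.inr ⟨b, hb⟩)), ⟨x, γ, x', γ', rfl, rfl, hx, hx', hxx⟩, ?_⟩
          rintro (i' | x1 | l | b1) h
          · obtain ⟨h | ⟨z', γ', h⟩, -⟩ := h
            · simp at h
            · simp at h
          · exfalso
            obtain ⟨h1 | ⟨δ, h1⟩, h2 | ⟨δ', h2⟩⟩ := h
            · simp at h1
            · simp at h1
            · simp at h2
            · simp only [Option.some.injEq, Prod.mk.injEq, Sum.inr.injEq] at h1 h2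
              exact hxx (h1.1.trans h2.1.symm)
          · exfalso
            obtain ⟨u, δ, u', δ', h1, h2, -, -, -, h5⟩ := h
            simp only [Option.some.injEq, Prod.mk.injEq] at h1 h2
            obtain ⟨rfl, rfl⟩ := h1
            obtain ⟨rfl, rfl⟩ := h2
            exact h5 ⟨x, x', rfl, rfl, b, hb, hx, hx'⟩
          · obtain ⟨u, δ, u', δ', h1, h2, h3, h4, -⟩ := h
            simp only [Option.some.injEq, Prod.mk.injEq, Sum.inr.injEq] at h1 h2
            obtain ⟨rfl, rfl⟩ := h1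
            obtain ⟨rfl, rfl⟩ := h2
            have : b1 = ⟨b, hb⟩ := Subtype.ext (hP b1.1 b1.2 b hb x x' hxx h3 h4 hx hx')
            rw [this]
        · exact EE_line γ γ' hc hcov

/-- the construction -/
theorem geom [Finite F] {n1 : ℕ} (hn1 : n1 = G * Nat.card F + 1) (hq : 2 ≤ q)
    (ha : Function.Injective a) (hξ : Function.Injective ξ)
    (hd : ∀ i x, a i ≠ ξ x) (hO : OA q G) (h0 : IG {q} G k 0) (h1 : IG {q} G (k + 1) 0)
    (h2 : IG {q} G (k + 2) 0) (h3 : IG {q} G k (G * 2)) (hV : IG {q} 1 n1 0)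
    (hX : IG {q} 1 (G + 1) 0) {P : Finset (Finset (Fin m))} (hPq : ∀ b ∈ P, b.card = q)
    (hP : ∀ b ∈ P, ∀ b' ∈ P, ∀ x y, x ≠ y → x ∈ b → y ∈ b → x ∈ b' → y ∈ b' → b = b')
    (γ0 : Fin G) :
    ∃ B : Set (Finset (Option (((Fin k × F) ⊕ Fin m) × Fin G))), Dec q (fun x y => x ≠ y) B ∧
      (∀ b ∈ P, b.map (lev F k γ0) ∈ B) ∧
      ∀ c ∈ B, (∃ b ∈ P, c = b.map (lev F k γ0)) ∨ ∀ x y z : Fin m, x ≠ y → x ≠ z → y ≠ z →
        lev F k γ0 x ∈ c → lev F k γ0 y ∈ c → lev F k γ0 z ∈ c → False := by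
  classical
  have := Fintype.ofFinite F
  choose BV hBV using fun i : Fin k => dec_complete hV (SV F k m G i)
    (by rw [card_SV, hn1, Nat.card_eq_fintype_card])
  choose BX hBX using fun x : Fin m => dec_complete hX (SX F k G x) (card_SX x)
  choose BL hBL using fun l : F × F => dec_line (a := a) hξ h0 h1 h2 h3 P l
  choose BP hBP hBP' using fun b : {b // b ∈ P} =>
    dec_td (F := F) (k := k) hq hO γ0 b.1 (hPq b.1 b.2)
  let B : Fin k ⊕ Fin m ⊕ (F × F) ⊕ {b // b ∈ P} →
      Set (Finset (Option (((Fin k × F) ⊕ Fin m) × Fin G))) := fun j =>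
    match j with
    | Sum.inl i => BV i
    | Sum.inr (Sum.inl x) => BX x
    | Sum.inr (Sum.inr (Sum.inl l)) => BL l
    | Sum.inr (Sum.inr (Sum.inr b)) => BP b
  have hB : ∀ j, Dec q (EE G a ξ P j) (B j) := by
    rintro (i | x | l | b)
    · exact hBV i
    · exact hBX x
    · exact hBL l
    · exact hBP b
  refine ⟨⋃ j, B j, dec_union hB (fun x y => EE_unique ha hξ hd hP), ?_, ?_⟩
  · intro b hb
    exact Set.mem_iUnion.2 ⟨Sum.inr (Sum.inr (Sum.inr ⟨b, hb⟩)), hBP' ⟨b, hb⟩⟩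
  · intro c hc
    obtain ⟨j, hj⟩ := Set.mem_iUnion.1 hc
    have hl : ∀ x : Fin m, lev F k γ0 x = some (Sum.inr x, γ0) := fun x => rfl
    have hll : ∀ {x y : Fin m}, x ≠ y → lev F k γ0 x ≠ lev F k γ0 y := fun h h' =>
      h ((lev F k γ0).injective h')
    have key := ((hB j).1 c hj).2
    rcases j with i | x0 | l | b
    · right
      intro x y z hxy _ _ hx hy _
      obtain ⟨h | ⟨u, δ, h⟩, -⟩ := key _ hx _ hy (hll hxy)
      · simp [hl] at h
      · simp [hl] at h
    · right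
      intro x y z hxy _ _ hx hy _
      obtain ⟨h | ⟨δ, h⟩, h' | ⟨δ', h'⟩⟩ := key _ hx _ hy (hll hxy)
      · simp [hl] at h
      · simp [hl] at h
      · simp [hl] at h'
      · simp only [hl, Option.some.injEq, Prod.mk.injEq, Sum.inr.injEq] at h h'
        exact hxy (h.1.trans h'.1.symm)
    · right
      intro x y z hxy hxz hyz hx hy hz
      have e1 : ∀ x y : Fin m, x ≠ y → lev F k γ0 x ∈ c → lev F k γ0 y ∈ c →
          onL a ξ l (Sum.inr x) ∧ onL a ξ l (Sum.inr y) := by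
        intro x y hxy hx hy
        obtain ⟨u, δ, u', δ', h1, h2, h3, h4, -⟩ := key _ hx _ hy (hll hxy)
        simp only [hl, Option.some.injEq, Prod.mk.injEq] at h1 h2
        rw [← h1.1] at h3
        rw [← h2.1] at h4
        exact ⟨h3, h4⟩
      exact three_parabola hξ hxy hxz hyz (e1 x y hxy hx hy).1 (e1 x y hxy hx hy).2
        (e1 x z hxz hx hz).2
    · by_cases hcb : c = b.1.map (lev F k γ0)
      · exact Or.inl ⟨b.1, b.2, hcb⟩
      · right
        intro x y z hxy _ _ hx hy _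
        apply hcb
        have hk := key _ hx _ hy (hll hxy)
        have hk' := hk
        obtain ⟨u, δ, u', δ', h1, h2, h3, h4, -⟩ := hk'
        simp only [hl, Option.some.injEq, Prod.mk.injEq, Sum.inr.injEq] at h1 h2
        rw [← h1.1] at h3
        rw [← h2.1] at h4
        obtain ⟨d, -, hd⟩ := (hB (Sum.inr (Sum.inr (Sum.inr b)))).2 _ _ (hll hxy) hk
        rw [hd c ⟨hj, hx, hy⟩, hd (b.1.map (lev F k γ0)) ⟨hBP' b, mem_map_of_mem _ h3,
          mem_map_of_mem _ h4⟩]

end Plane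

end Pool.Agent.H424.PS
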